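import Pool.Agent.UC32.LawT

/-!
The door for law J (helper68): one `z` with a small `V_z` for each exceptional plane.
-/

set_option autoImplicit false
set_option linter.unusedSectionVars false

namespace Pool.Agent.JN45

open QS
open Pool.Agent.MXR66 (va ql of_ql qr)
open Pool.Agent.KAP66 (InQ)
open Pool.Agent.KAP31 (MinEx)
open Pool.Agent.UC32 (Lightest etc_of_FD)

variable {S : QStruct}

/-- the size of `V_x ∩ V_y` -/
noncomputable def pv (S : QStruct) (x y : S.G) : ℕ :=
  Nat.card {v : S.G // S.q x v = S.zero ∧ S.q y v = S.zero}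

/-- `Q_x ∩ Q_y ∩ Q_(xy)` -/
def Th (S : QStruct) (x y : S.G) (c : S.Q) : Prop := InQ S x c ∧ InQ S y c ∧ InQ S (x * y) c

/-- **the pencil inequality with the third group**: if `x` takes on `V_y` a value outside `Q_y`,
then `|V_x ∩ V_y| |Q_x ∩ Q_y ∩ Q_(xy)| < |V_y|` -/
theorem pencil_lt [Finite S.G] {y x u : S.G} (hu : S.q y u = S.zero)
    (hn : ¬ InQ S y (S.q x u)) : pv S x y * Nat.card {c : S.Q // Th S x y c} < va S y := by
  classical
  have := Fintype.ofFinite S.G
  have ht : ∀ c : {c : S.Q // Th S x y c}, ∃ t, S.q y t = S.zero ∧ S.q x t = c.1 := by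
    rintro ⟨c, ⟨a, ha⟩, -, ⟨b, hb⟩⟩
    obtain ⟨t, h1, h2⟩ := S.qs4 x a (x * y) b (ha.trans hb.symm)
    refine ⟨t, ?_, by rw [← h1, ha]⟩
    have h3 : S.q x t = S.q (x * y) t := by rw [← h1, ← h2, ha, hb]
    have h4 := ql h3
    rwa [← mul_assoc, S.exp_two, one_mul] at h4
  choose t ht1 ht2 using ht
  let f : {v : S.G // S.q x v = S.zero ∧ S.q y v = S.zero} × {c : S.Q // Th S x y c} →
      {v : S.G // S.q y v = S.zero} := fun w => ⟨w.1.1 * t w.2, by
    rw [qr w.1.2.2]
    exact ht1 _⟩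
  have hx : ∀ w, S.q x (f w).1 = w.2.1 := by
    intro w
    show S.q x (w.1.1 * t w.2) = _
    rw [qr w.1.2.1]
    exact ht2 _
  have hinj : Function.Injective f := by
    intro w w' h
    have h1 : w.2 = w'.2 := Subtype.ext (by rw [← hx w, ← hx w', h])
    have h2 : w.1.1 * t w.2 = w'.1.1 * t w'.2 := congrArg Subtype.val h
    rw [h1] at h2
    exact Prod.ext (Subtype.ext (mul_right_cancel h2)) h1
  have hns : (⟨u, hu⟩ : {v : S.G // S.q y v = S.zero}) ∉ Set.range f := by
    rintro ⟨w, hw⟩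
    apply hn
    have h1 := hx w
    rw [hw] at h1
    rw [show S.q x u = w.2.1 from h1]
    exact w.2.2.2.1
  have hfin : Finite ({v : S.G // S.q x v = S.zero ∧ S.q y v = S.zero} ×
      {c : S.Q // Th S x y c}) := Finite.of_injective f hinj
  have := Fintype.ofFinite ({v : S.G // S.q x v = S.zero ∧ S.q y v = S.zero} ×
      {c : S.Q // Th S x y c})
  unfold va pv
  rw [← Nat.card_prod, Nat.card_eq_fintype_card, Nat.card_eq_fintype_card]
  exact Fintype.card_lt_of_injective_of_notMem f hinj hns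

/-- **law J** (helper68) at a lightest `y`: for each `x` some `z ≠ 1` has
`|V_z| ≤ |V_x ∩ V_y| |Q_x ∩ Q_y ∩ Q_(xy)|` -/
def LawJ (S : QStruct) : Prop := ∀ y x, Lightest S y →
  (∃ u, S.q y u = S.zero ∧ ¬ InQ S y (S.q x u)) →
  ∃ z, z ≠ 1 ∧ va S z ≤ pv S x y * Nat.card {c : S.Q // Th S x y c}

/-- **law J gives the elementary type conjecture for `-1 = 1`** -/
theorem etc_of_J (h : ∀ S : QStruct, MinEx S → LawJ S) :
    ∀ S : QStruct, Finite S.G → S.neg = 1 → ElemType S :=
  etc_of_FD fun S M y hy u v hu => by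
    have := M.fin
    by_contra hn
    have hn' : ¬ InQ S y (S.q v u) := by
      rw [S.qs2]
      exact hn
    obtain ⟨z, hz1, hz2⟩ := h S M y v hy ⟨u, hu, hn'⟩
    exact absurd (hy.2 z hz1) (not_le.2 (hz2.trans_lt (pencil_lt hu hn')))

end Pool.Agent.JN45
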